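import Mathlib
import Pool.Agent.Work.MP_4bb68c_pr.Defs
import Pool.Agent.Work.MP_4bb68c_pr.Run
import Pool.Agent.Work.MP_4bb68c_pr.Pop
import Pool.Agent.Work.MP_4bb68c_pr.Chain
import Pool.Agent.Work.MP_4bb68c_pr.Upper
import Pool.Agent.Work.MP_4bb68c_pr.Num
import Pool.Agent.Work.MP_4bb68c_pr.PopBound
import Pool.Agent.Work.MP_4bb68c_pr.Weights
import Pool.Agent.Work.MP_4bb68c_pr.Clocks
import Pool.Agent.Work.MP_4bb68c_pr.Evol
import Pool.Agent.Work.MP_4bb68c_pr.Family
import Pool.Agent.Work.MP_4bb68c_d1.Slopes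

/-!
# Ballistic deposition seen from the origin has many stationary laws

For `d = 1` and for all large `d`, and for every slope `v` with `∑ i, |v i|` at most `1 / 100`,
respectively `1 / 5`, there is a stationary probability measure whose increments are translation
invariant, whose heights are integrable and whose mean slope is `v`.
-/

open MeasureTheory ProbabilityTheory Filter Topology
open Pool.MP4bb68c

namespace Pool.Agent.Results.MP_4bb68c_pr.NonUniqueness

theorem marks_cycles (K M : ℕ) : marks (cycles K M) = M := by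
  induction M with
  | zero => rfl
  | succ M ih =>
    unfold marks at ih ⊢
    rw [cycles, List.filter_append, List.length_append, ih, cyc, List.filter_cons_of_pos rfl,
      List.length_cons]
    have : (List.replicate K (false, 1)).filter (fun s => s.1) = [] := by
      rw [List.filter_eq_nil_iff]
      intro a ha
      rw [List.eq_of_mem_replicate ha]
      simp
    rw [this]
    simp
    omega

theorem marks_sched (m K M : ℕ) : marks (sched m K M) = M := by
  have h := marks_cycles K M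
  unfold marks at h ⊢
  rw [sched, List.filter_append, List.length_append, h]
  have : (List.replicate 9 (false, 4 * m * m)).filter (fun s => s.1) = [] := by
    rw [List.filter_eq_nil_iff]
    intro a ha
    rw [List.eq_of_mem_replicate ha]
    simp
  rw [this]
  simp

theorem units_cycles (K M : ℕ) : units (cycles K M) = M * (K + 1) := by
  induction M with
  | zero => simp [units, cycles]
  | succ M ih =>
    unfold units at ih ⊢
    rw [cycles, List.map_append, List.sum_append, ih, cyc]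
    simp
    ring

theorem units_sched (m K M : ℕ) : units (sched m K M) = 36 * m ^ 2 + M * (K + 1) := by
  have h := units_cycles K M
  unfold units at h ⊢
  rw [sched, List.map_append, List.sum_append, h]
  simp
  ring

theorem exists_slopes : ∃ d₀ : ℕ, ∀ d ≥ d₀, ∀ v : Fin d → ℝ, ∑ i, |v i| ≤ 1 / 5 →
    ∃ μ : Measure (Height d), HasSlope μ v := by
  obtain ⟨m₁, h₁⟩ := pop_bound
  obtain ⟨m₂, h₂⟩ := numeric
  refine ⟨m₁ + m₂ + 2, fun d hd v hv => ?_⟩
  set m := 2 * (d - 1) with hm
  have hm1 : 1 ≤ m := by omega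
  obtain ⟨lam, hlam, hlt⟩ := h₂ d m hm (by omega)
  have hq : 0 < 4 * m := by omega
  have hm3 : (0 : ℝ) < m ^ 3 := by positivity
  refine exists_hasSlope hq ((2 * Real.exp lam + 2 * d) / lam) (1 / 5) (by norm_num)
    (fun i₀ f hf n k x => mean_le i₀ hlam f hf (dl (4 * m) n) k x)
    (36 * m ^ 2 + m ^ 3 * (Kof m + 1)) ?_ (by omega) v hv
  intro i₀
  obtain ⟨w, hw0, hw1, hwz, hwA⟩ := weights i₀ 0 1 (Or.inl ⟨rfl, rfl⟩) hq
    (sched m (Kof m) (m ^ 3))
  obtain ⟨w', hw0', hw1', hwB', hwA'⟩ := weights i₀ (Pi.single i₀ 1) 0 (Or.inr ⟨rfl, rfl⟩) hq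
    (sched m (Kof m) (m ^ 3))
  have f1 := h₁ d i₀ 0 (by omega)
  have f2 := h₁ d i₀ (Pi.single i₀ 1) (by omega)
  have g2 := pb_fail_nonneg (4 * m) i₀ (Pi.single i₀ 1) 1 (sched m (Kof m) (m ^ 3)) {0}
  rw [← hm] at f1 f2
  rw [marks_sched, units_sched] at hwA hwA'
  rw [marks_sched] at hwB'
  set F := fail (4 * m) i₀ 0 1 (sched m (Kof m) (m ^ 3)) {0} with hF
  set F' := fail (4 * m) i₀ (Pi.single i₀ 1) 1 (sched m (Kof m) (m ^ 3)) {0} with hF'
  refine ⟨m ^ 3 * (1 - F), m ^ 3 * (1 - F'), w, w', hw0, hw0', hw1, hw1', ?_, ?_, ?_, ?_, ?_, ?_⟩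
  · rw [hwz]
    simp
  · rw [hwB', Pi.single_eq_same]
    push_cast
    ring
  · intro n f
    have := hwA n f
    push_cast at this ⊢
    linarith
  · intro n f
    have := hwA' n f
    push_cast at this ⊢
    linarith
  · have : 0 < 1 - F' := by linarith
    positivity
  · push_cast
    nlinarith

theorem exists_slopes_all : ∃ d₀ : ℕ, ∀ d : ℕ, d = 1 ∨ d₀ ≤ d → ∀ v : Fin d → ℝ,
    ∑ i, |v i| ≤ (if d = 1 then 1 / 100 else 1 / 5) → ∃ μ : Measure (Height d), HasSlope μ v := by
  obtain ⟨d₀, hd₀⟩ := exists_slopes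
  refine ⟨d₀, fun d hd v hv => ?_⟩
  by_cases h1 : d = 1
  · subst h1
    rw [if_pos rfl] at hv
    exact Pool.MP4bb68cOne.exists_slopes_one v hv
  · rw [if_neg h1] at hv
    exact hd₀ d (hd.resolve_left h1) v hv

/-- For `d = 1` and for all large `d`, ballistic deposition on `ℤ^d` is well defined and has, for
every slope `v` with `∑ i, |v i| ≤ 1 / 100` (`d = 1`), respectively `∑ i, |v i| ≤ 1 / 5`, a
stationary probability measure `μ v` with translation invariant increments, integrable heights and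
mean slope `v`; these measures are pairwise distinct. -/
theorem result : ∃ d₀ : ℕ, ∀ d : ℕ, d = 1 ∨ d₀ ≤ d →
    (∃ (Ω : Type) (_ : MeasurableSpace Ω) (P : Measure Ω) (upd : Ω → Site d → Set ℝ),
      IsProbabilityMeasure P ∧ IsPoissonClocks P upd ∧
      ∀ᵐ ω ∂P, ∀ f : Height d, ∃ h : ℝ → Height d, IsEvolution (upd ω) f h ∧
        ∀ h' : ℝ → Height d, IsEvolution (upd ω) f h' → ∀ t, 0 ≤ t → h' t = h t) ∧
    ∃ μ : (Fin d → ℝ) → Measure (Height d),
      Set.InjOn μ {v | ∑ i, |v i| ≤ if d = 1 then 1 / 100 else 1 / 5} ∧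
      ∀ v : Fin d → ℝ, ∑ i, |v i| ≤ (if d = 1 then 1 / 100 else 1 / 5) →
        IsProbabilityMeasure (μ v) ∧ IsStationary (μ v) ∧
        (∀ y : Site d, (μ v).map (fun g x => g (x + y) - g y) = μ v) ∧
        ∀ x : Site d, Integrable (fun g : Height d => (g x : ℝ)) (μ v) ∧
          ∫ g, (g x : ℝ) ∂(μ v) = ∑ i, v i * x i := by
  classical
  obtain ⟨d₀, hd₀⟩ := exists_slopes_all
  refine ⟨d₀, fun d hd => ⟨?_, ?_⟩⟩
  · obtain ⟨Ω, hΩ, P, upd, hP, hclk⟩ := exists_clocks d
    exact ⟨Ω, hΩ, P, upd, hP, hclk, ae_existsUnique_evolution hclk⟩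
  · have h1 : ∀ v : Fin d → ℝ, ∃ μ : Measure (Height d),
        ∑ i, |v i| ≤ (if d = 1 then 1 / 100 else 1 / 5) → HasSlope μ v := by
      intro v
      by_cases hv : ∑ i, |v i| ≤ (if d = 1 then (1 / 100 : ℝ) else 1 / 5)
      · obtain ⟨μ, hμ⟩ := hd₀ d hd v hv
        exact ⟨μ, fun _ => hμ⟩
      · exact ⟨0, fun h => absurd h hv⟩
    choose μ hμ using h1
    refine ⟨μ, ?_, fun v hv => ⟨(hμ v hv).prob, (hμ v hv).stat, fun y => (hμ v hv).inv y,
      fun x => ⟨(hμ v hv).int x, (hμ v hv).mean x⟩⟩⟩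
    intro v hv v' hv' heq
    ext i
    have e1 := (hμ v hv).mean (Pi.single i 1)
    have e2 := (hμ v' hv').mean (Pi.single i 1)
    rw [heq, e2] at e1
    have e3 : ∀ u : Fin d → ℝ, ∑ k, u k * ((Pi.single i 1 : Site d) k : ℝ) = u i := by
      intro u
      rw [Finset.sum_eq_single i]
      · simp
      · intro k _ hk
        simp [Pi.single_eq_of_ne hk]
      · intro h
        exact absurd (Finset.mem_univ i) h
    rw [e3, e3] at e1
    exact e1.symm

end Pool.Agent.Results.MP_4bb68c_pr.NonUniqueness
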