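import Mathlib
import Pool.Agent.Work.MP_4bb68c_pr.Defs
import Pool.Agent.Work.MP_4bb68c_pr.Clocks
import Pool.Agent.Work.MP_4bb68c_pr.Evol
import Pool.Agent.Work.MP_4bb68c_cl.Fin
import Pool.Agent.Work.MP_4bb68c_ex.ExtEq
import Pool.Agent.Work.MP_4bb68c_ex.FinC
import Pool.Agent.Work.MP_4bb68c_ex.FinD
import Pool.Agent.Work.MP_4bb68c_ex.MixAll
import Pool.Agent.Work.MP_4bb68c_ex.TopL

/-!
# All stationary laws of ballistic deposition on `ℤ` seen from the origin

No translation invariance is assumed. There are a closed set `J` of slopes and laws `μ v`, `v ∈ J`, with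
translation invariant increments, such that

* the stationary laws for which `g 1` and `g (-1)` are integrable are exactly the mixtures
  `∫ μ v κ(dv)` over the probability measures `κ` on `J` with a finite first moment, and `κ` is
  determined by the mixture; in particular they all have translation invariant increments;
* every stationary law is a mixture of extremal ones (extremal in the set of ALL stationary laws);
* every `μ v` is extremal;
* any two extremal stationary laws are comparable in the stochastic order of the increments, and there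
  are a largest and a smallest stationary law;
* an extremal stationary law which is not one of the `μ v` has a non-integrable height next to the
  origin and dominates all the `μ v`, or is dominated by all of them.

Proof: the ancestors (argmax lines of the variational formula) of two sites coalesce under every
stationary law: otherwise a stationary law of the process with two colours (each updated site takes the
colour of its source) would have a change of colour, and the flux of the changes of colour and an
energy dissipation inequality exclude this. Coalescence implies that every stationary coupling of two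
stationary laws is ordered. For an extremal law `ν` with integrable increments the difference in a
stationary coupling of `ν` and its shift has a finite sum, and the maximum of the two height functions
gives a stationary law of the process with two colours, so the difference vanishes and `ν` is shift
invariant. The ergodic decomposition removes the extremality.
-/

open MeasureTheory ProbabilityTheory Filter Topology
open Pool.MP4bb68c

namespace Pool.Agent.Results.MP_4bb68c_pr.StationaryLawsDimOne

/-- The increments of a height function: `increments g x = g (x + 1) - g x`. -/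
def increments (g : Height 1) : ℤ → ℤ := fun x => g (fun _ => x + 1) - g (fun _ => x)

/-- `ν`-almost every `g` has the asymptotic slope `v` (at `+∞`; the law `μ v` below has it at `-∞`
too, because its mirror image is `μ (-v)`). -/
def HasAsymptoticSlope (ν : Measure (Height 1)) (v : ℝ) : Prop :=
  ∀ᵐ g ∂ν, Tendsto (fun n : ℕ => (g (fun _ => (n : ℤ)) : ℝ) / n) atTop (𝓝 v)

/-- `A` depends only on the coordinates `-M, ..., M - 1`. -/
def DependsOnWindow (M : ℕ) (A : Set (ℤ → ℤ)) : Prop :=
  ∀ η η' : ℤ → ℤ, (∀ x : ℤ, -M ≤ x → x < M → η x = η' x) → (η ∈ A ↔ η' ∈ A)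

/-- `A` is an increasing event. -/
def IsIncreasing (A : Set (ℤ → ℤ)) : Prop := ∀ η η' : ℤ → ℤ, (∀ x, η x ≤ η' x) → η ∈ A → η' ∈ A

/-- The stochastic order of the increments: every increasing event which depends on finitely many
increments is at least as probable under `ν'` as under `ν`. -/
def IsDominatedBy (ν ν' : Measure (Height 1)) : Prop :=
  ∀ (M : ℕ) (A : Set (ℤ → ℤ)), MeasurableSet A → DependsOnWindow M A → IsIncreasing A →
    ν.real {g | increments g ∈ A} ≤ ν'.real {g | increments g ∈ A}

/-- `ν` is a stationary probability measure for ballistic deposition on `ℤ` seen from the origin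
(without any further condition). -/
def IsStationaryLaw (ν : Measure (Height 1)) : Prop := IsProbabilityMeasure ν ∧ IsStationary ν

/-- `ν` is an extreme point of the set of all stationary probability measures. -/
def IsExtremalLaw (ν : Measure (Height 1)) : Prop :=
  IsStationaryLaw ν ∧ ∀ ν₁ ν₂ : Measure (Height 1), IsStationaryLaw ν₁ → IsStationaryLaw ν₂ →
    ∀ a : ℝ, 0 < a → a < 1 → ν = ENNReal.ofReal a • ν₁ + ENNReal.ofReal (1 - a) • ν₂ →
      ν₁ = ν ∧ ν₂ = ν

/-- The heights next to the origin are integrable. -/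
def HasIntegrableIncrements (ν : Measure (Height 1)) : Prop :=
  Integrable (fun g : Height 1 => (g (fun _ => 1) : ℝ)) ν ∧
    Integrable (fun g : Height 1 => (g (fun _ => -1) : ℝ)) ν

section
open Pool.MP4bb68cCl Pool.MP4bb68cOne Pool.MP4bb68cEx

private theorem exl_iff {ν : Measure (Height 1)} : IsExtremalLaw ν ↔ ExtH ν := by
  constructor
  · rintro ⟨⟨h1, h2⟩, h3⟩
    exact ⟨h1, h2, fun ν₁ ν₂ p1 p2 s1 s2 a a0 a1 he => (h3 ν₁ ν₂ ⟨p1, s1⟩ ⟨p2, s2⟩ a a0 a1 he).1⟩
  · rintro ⟨h1, h2, h3⟩
    refine ⟨⟨h1, h2⟩, fun ν₁ ν₂ p1 p2 a a0 a1 he => ⟨h3 ν₁ ν₂ p1.1 p2.1 p1.2 p2.2 a a0 a1 he, ?_⟩⟩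
    refine h3 ν₂ ν₁ p2.1 p1.1 p2.2 p1.2 (1 - a) (by linarith) (by linarith) ?_
    rw [he, add_comm]
    simp

private theorem dom_iff {ν ν' : Measure (Height 1)} :
    IsDominatedBy ν ν' ↔ LeI (ν.map incr) (ν'.map incr) := by
  have key : ∀ (ρ : Measure (Height 1)) (A : Set (ℤ → ℤ)), MeasurableSet A →
      (ρ.map incr).real A = ρ.real {g | increments g ∈ A} := by
    intro ρ A hA
    rw [map_measureReal_apply measurable_incr hA]
    rfl
  constructor
  · intro h M A hA hM hup
    rw [key ν A hA, key ν' A hA]
    exact h M A hA hM hup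
  · intro h M A hA hM hup
    rw [← key ν A hA, ← key ν' A hA]
    exact h M A hA hM hup

private theorem int_iff {ν : Measure (Height 1)} : HasIntegrableIncrements ν ↔
    (Integrable (fun g : Height 1 => (g (pt 1) : ℝ)) ν ∧
      Integrable (fun g : Height 1 => (g (pt (-1)) : ℝ)) ν) := Iff.rfl

private theorem stat_law_invLaw {ν : Measure (Height 1)} (h : InvLaw ν) : IsStationaryLaw ν :=
  ⟨h.prob, h.stat⟩

private theorem ext_ae {ν : Measure (Height 1)} (h : IsExtremalLaw ν) :
    ExtI (ν.map incr) ∧ ν = htL (ν.map incr) := ext_to (exl_iff.1 h)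

private theorem mu_exl {v : ℝ} (hv : v ∈ JJ) : IsExtremalLaw (mu v) :=
  exl_iff.2 (ext_from (mu_ext hv) (mu_htL hv))

private theorem exl_htL {π : Measure (ℤ → ℤ)} (h : ExtI π) : IsExtremalLaw (htL π) := by
  refine exl_iff.2 (ext_from ?_ ?_)
  · rw [map_incr_htL]
    exact h
  · rw [map_incr_htL]

private theorem not_int {ν : Measure (Height 1)} (h : IsExtremalLaw ν)
    (hi : HasIntegrableIncrements ν) : ∃ v ∈ JJ, ν = mu v := by
  have hp := h.1.1
  obtain ⟨h1, h2⟩ := ext_ae h
  obtain ⟨i0, i1⟩ := int_incr h.1.2 hi.1 hi.2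
  obtain ⟨v, hv, he⟩ := ext_mu h1 i0 i1
  exact ⟨v, hv, by rw [h2, he, ← mu_htL hv]⟩

/-- Ballistic deposition on `ℤ` is well defined, and its stationary laws (seen from the origin) are
described as above. -/
theorem result :
    (∃ (Ω : Type) (_ : MeasurableSpace Ω) (P : Measure Ω) (upd : Ω → Site 1 → Set ℝ),
      IsProbabilityMeasure P ∧ IsPoissonClocks P upd ∧
      ∀ᵐ ω ∂P, ∀ f : Height 1, ∃ h : ℝ → Height 1, IsEvolution (upd ω) f h ∧
        ∀ h' : ℝ → Height 1, IsEvolution (upd ω) f h' → ∀ t, 0 ≤ t → h' t = h t) ∧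
    ∃ (J : Set ℝ) (μ : ℝ → Measure (Height 1)), IsClosed J ∧ Measurable μ ∧
      -- there are at least two extreme laws; the family is symmetric under the reflection
      (∃ v ∈ J, 1 / 100 ≤ v) ∧
      (∀ v ∈ J, -v ∈ J ∧ μ (-v) = (μ v).map (fun g x => g (-x))) ∧
      -- the laws `μ v`: translation invariant increments, asymptotic slope `v`, mean `v x`
      (∀ v ∈ J, IsStationaryLaw (μ v) ∧ (∀ y : Site 1, (μ v).map (fun g x => g (x + y) - g y) = μ v) ∧
        HasAsymptoticSlope (μ v) v ∧
        ∀ x : Site 1, Integrable (fun g : Height 1 => (g x : ℝ)) (μ v) ∧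
          ∫ g, (g x : ℝ) ∂(μ v) = v * x 0) ∧
      -- `μ v` is a Lipschitz function of `v`, and increasing in the stochastic order
      (∀ v ∈ J, ∀ w ∈ J, (v ≤ w → IsDominatedBy (μ v) (μ w)) ∧
        ∀ (M : ℕ) (A : Set (ℤ → ℤ)), MeasurableSet A → DependsOnWindow M A →
          |(μ v).real {g | increments g ∈ A} - (μ w).real {g | increments g ∈ A}| ≤
            2 * M * |v - w|) ∧
      -- the stationary laws with integrable increments are the mixtures of the `μ v`, in a unique way
      (∀ κ : Measure ℝ, IsProbabilityMeasure κ → κ Jᶜ = 0 → Integrable (fun v : ℝ => v) κ →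
        IsStationaryLaw (κ.bind μ) ∧ HasIntegrableIncrements (κ.bind μ)) ∧
      (∀ ν : Measure (Height 1), IsStationaryLaw ν → HasIntegrableIncrements ν →
        ∃! κ : Measure ℝ, IsProbabilityMeasure κ ∧ κ Jᶜ = 0 ∧ Integrable (fun v : ℝ => v) κ ∧
          ν = κ.bind μ) ∧
      (∀ (ν : Measure (Height 1)) (v : ℝ), IsStationaryLaw ν → HasIntegrableIncrements ν →
        HasAsymptoticSlope ν v → v ∈ J ∧ ν = μ v) ∧
      -- the set of all stationary laws: every law is a mixture of extremal ones
      (∀ ν : Measure (Height 1), IsStationaryLaw ν →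
        ∃ (ρ : Measure (ℕ → ℝ)) (κ : Kernel (ℕ → ℝ) (Height 1)), IsProbabilityMeasure ρ ∧
          IsMarkovKernel κ ∧ ν = ρ.bind κ ∧ ∀ᵐ l ∂ρ, IsExtremalLaw (κ l)) ∧
      -- there are a largest and a smallest stationary law
      (∃ νmin νmax : Measure (Height 1), IsExtremalLaw νmin ∧ IsExtremalLaw νmax ∧
        ∀ ν : Measure (Height 1), IsStationaryLaw ν →
          IsDominatedBy νmin ν ∧ IsDominatedBy ν νmax) ∧
      -- the extreme points of the set of all stationary laws
      (∀ v ∈ J, IsExtremalLaw (μ v)) ∧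
      (∀ ν ν' : Measure (Height 1), IsExtremalLaw ν → IsExtremalLaw ν' →
        IsDominatedBy ν ν' ∨ IsDominatedBy ν' ν) ∧
      (∀ ν : Measure (Height 1), IsExtremalLaw ν → (∃ v ∈ J, ν = μ v) ∨
        (¬ HasIntegrableIncrements ν ∧
          ((∀ v ∈ J, IsDominatedBy (μ v) ν) ∨ ∀ v ∈ J, IsDominatedBy ν (μ v)))) := by
  constructor
  · obtain ⟨Ω, hΩ, P, upd, hP, hclk⟩ := exists_clocks 1
    exact ⟨Ω, hΩ, P, upd, hP, hclk, ae_existsUnique_evolution hclk⟩
  · refine ⟨JJ, mu, isClosed_JJ, measurable_mu isClosed_JJ.measurableSet, exists_big,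
      fun v hv => ⟨neg_mem_JJ hv, mu_neg hv⟩, fun v hv => ?_, fun v hv w hw => ?_,
      fun κ hκ h1 h2 => ?_, fun ν hν hi => ?_, fun ν v hν hi hs => ?_, fun ν hν => ?_, ?_,
      fun v hv => mu_exl hv, fun ν ν' hν hν' => ?_, fun ν hν => ?_⟩
    · have hI := (mu_spec hv).1
      exact ⟨⟨hI.prob, hI.stat⟩, hI.inv, (mu_spec hv).2, fun x => ⟨hI.int x, fin_mean hv x⟩⟩
    · exact ⟨fun hvw M A hA hM hup => fin_mono M hA hM hup hv hw hvw,
        fun M A hA hM => fin_lip M hA hM hv hw⟩
    · have hI := mixture isClosed_JJ.measurableSet h1 h2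
      exact ⟨⟨hI.prob, hI.stat⟩, hI.int _, hI.int _⟩
    · have hp := hν.1
      exact fin_decomp (invLaw_all hν.2 hi.1 hi.2)
    · have hp := hν.1
      exact eq_mu (invLaw_all hν.2 hi.1 hi.2) (slpAS_slp hs)
    · have hp := hν.1
      obtain ⟨ρ, κ, h1, h2, h3, h4⟩ := mix_all hν.2
      refine ⟨ρ, κ, h1, h2, h3.symm, ?_⟩
      filter_upwards [h4] with l hl
      exact exl_iff.2 hl
    · obtain ⟨νm, hm, hm'⟩ := bot_law
      obtain ⟨νp, hq, hq'⟩ := top_law
      refine ⟨htL νm, htL νp, exl_htL hm, exl_htL hq, fun ν hν => ?_⟩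
      have hp := hν.1
      have h1 : IsProbabilityMeasure (ν.map incr) :=
        Measure.isProbabilityMeasure_map measurable_incr.aemeasurable
      have h2 := genA hν.2
      refine ⟨dom_iff.2 ?_, dom_iff.2 ?_⟩
      · rw [map_incr_htL]
        exact hm' _ h1 h2
      · rw [map_incr_htL]
        exact hq' _ h1 h2
    · rcases comparable (ext_ae hν).1 (ext_ae hν').1 with h | h
      · exact Or.inl (dom_iff.2 h)
      · exact Or.inr (dom_iff.2 h)
    · by_cases hi : HasIntegrableIncrements ν
      · exact Or.inl (not_int hν hi)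
      · rcases tri (ext_ae hν).1 with ⟨v, hv, he⟩ | h | h
        · left
          refine ⟨v, hv, ?_⟩
          rw [(ext_ae hν).2, he, ← mu_htL hv]
        · exact Or.inr ⟨hi, Or.inl fun v hv => dom_iff.2 (h v hv)⟩
        · exact Or.inr ⟨hi, Or.inr fun v hv => dom_iff.2 (h v hv)⟩

end

end Pool.Agent.Results.MP_4bb68c_pr.StationaryLawsDimOne
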